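import Pool.Agent.Helper90_LCK.FCD
import Pool.Agent.Helper39_LCK.PDN
import Pool.Agent.Helper28_LCK.SQF
import Pool.Agent.Helper17_LCK.LCB
import Pool.Agent.Helper41_LCK.FCP
import Pool.Agent.Helper10_LCK.FPF
import Pool.Agent.Helper76_LCK.PAR
import Pool.Agent.Helper41_LCK.DET
import Pool.Agent.Helper24_LCK.FIN
import Pool.Agent.Helper32_LCK.SNC
import Pool.Agent.Helper81_LCK.ADJ
import Pool.Agent.Helper65_LCK.OPN
import Pool.Agent.Helper32_LCK.LPC
import Pool.Agent.Helper83_LCK.DEN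
import Pool.Agent.Helper20_LCK.FIB
import Pool.Agent.Helper81_LCK.PTH
import Pool.Agent.Helper15_LCK.UPS
import Pool.Agent.Helper25_LCK.BAS
import Pool.Agent.Helper92_LCK.REV
import Pool.Agent.Helper65_LCK.THR
import Pool.Agent.Helper65_LCK.EXT
import Pool.Agent.Helper65_LCK.THS

/-!
# MP_e0fe99_lc: a short end link never locks an unlocked chain; thresholds for the end links

Team: helper65, helper61, helper97, helper60 (theorem), helper10, 15, 17, 20, 24, 25, 28, 32, 39, 41,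
76, 81, 83, 90, 92 (rows).
-/

set_option autoImplicit false

namespace Pool.Agent.Results.MP_e0fe99_lc.EndLinkThreshold

open Pool.Agent.LCK

theorem snc : SNCStmt := Pool.Agent.LCK.H32.snc

theorem den : DENStmt := Pool.Agent.LCK.H83.den

theorem lpc : LPCStmt := Pool.Agent.LCK.H32.lpc (Pool.Agent.LCK.H65o.opn Pool.Agent.LCK.H81.adj)

theorem fib : FIBStmt := Pool.Agent.LCK.H20.fib Pool.Agent.LCK.H81.adj

theorem pth : PTHStmt := Pool.Agent.LCK.H81.pth snc fib

theorem fcp : FCPStmt := Pool.Agent.LCK.H41.fcp Pool.Agent.LCK.H90.fcd Pool.Agent.LCK.H39.pdn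
  Pool.Agent.LCK.H28.sqf Pool.Agent.LCK.H17.lcb

theorem fin : FINStmt := Pool.Agent.LCK.H24.fin Pool.Agent.LCK.H90.fcd
  (Pool.Agent.LCK.H10.fpf fcp Pool.Agent.LCK.H39.pdn) Pool.Agent.LCK.H76.par
  (Pool.Agent.LCK.H41.det Pool.Agent.LCK.H76.par)

theorem thr : THRStmt := Pool.Agent.LCK.H65.thr snc den lpc pth fin

theorem bas : BASStmt := Pool.Agent.LCK.H25.bas

theorem res : RESStmt := Pool.Agent.LCK.H65e.res (Pool.Agent.LCK.H15.ups snc den) thr bas
  Pool.Agent.LCK.H92.rev (Pool.Agent.LCK.H65e.ext bas thr) lpc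

/-- Every end link of an unlocked chain has a threshold in `(0, ∞]`; locked chains stay locked when links
are appended; there are unlocked chains with rational link lengths for every number of links. -/
theorem result :
    (∀ (n : ℕ) (l : Fin n → ℝ), (∀ k, 0 < l k) → ¬ Locked l →
      ∃ τ τ' : ENNReal, 0 < τ ∧ 0 < τ' ∧ ∀ L : ℝ, 0 < L →
        (ENNReal.ofReal L < τ → ¬ Locked (ap l L)) ∧ (τ < ENNReal.ofReal L → Locked (ap l L)) ∧
        (ENNReal.ofReal L < τ' → ¬ Locked (pr L l)) ∧ (τ' < ENNReal.ofReal L → Locked (pr L l))) ∧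
    (∀ (n : ℕ) (l : Fin n → ℝ), (∀ k, 0 < l k) → ∀ L : ℝ, 0 < L → Locked l →
      Locked (ap l L) ∧ Locked (pr L l)) ∧
    (∀ n : ℕ, ∃ l : Fin n → ℚ, (∀ k, 0 < l k) ∧ ¬ Locked (fun k => (l k : ℝ))) :=
  Pool.Agent.LCK.H65t.ths res

end Pool.Agent.Results.MP_e0fe99_lc.EndLinkThreshold
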