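import Pool.Agent.LCK.Defs
import Pool.Agent.Helper61_LC5.Top

/-!
# The exact classification of five link chains (MP_e0fe99_lc)

An open chain in 3-space with five links of lengths `l 0, …, l 4` is locked if and only if
`l 1 + l 2 + l 3 ≤ min (l 0) (l 4)`.
-/

set_option autoImplicit false

namespace Pool.Agent.Results.MP_e0fe99_lc.FiveLinks

open Pool.Agent.LCK

theorem result (l : Fin 5 → ℝ) (hl : ∀ k, 0 < l k) :
    (Locked l ↔ l 1 + l 2 + l 3 ≤ min (l 0) (l 4)) ∧
    (¬ Locked l → ∀ c ∈ Conf l, ∀ c' ∈ Conf l, JoinedIn (Conf l) c c') :=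
  Pool.Agent.LC5.Top.top l hl

end Pool.Agent.Results.MP_e0fe99_lc.FiveLinks
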