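import Pool.Agent.Helper55_GLK.Top

/-!
# MP_e0fe99_lc: a link at least as long as all the others together decouples the chain

The chain `(l 0, …, l (n-1))` is `fun k : Fin n => l k`; the giant link is `l g`.  The chain is locked
iff one of the two chains `(l 0, …, l g)`, `(l g, …, l (n-1))` is locked.  With the classification of
the chains with five links this decides all chains with a giant link and at most four links on each
side of it.
-/

set_option autoImplicit false

namespace Pool.Agent.Results.MP_e0fe99_lc.GiantLink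

open Pool.Agent.LCK

theorem result (l : ℕ → ℝ) (g n : ℕ) (hl : ∀ k < n, 0 < l k) (hg : g < n)
    (hG : ∑ k ∈ (Finset.range n).erase g, l k ≤ l g) :
    (Locked (fun k : Fin n => l k) ↔
      Locked (fun k : Fin (g + 1) => l k) ∨ Locked (fun k : Fin (n - g) => l (g + k))) ∧
    (g ≤ 4 → n ≤ g + 5 → (Locked (fun k : Fin n => l k) ↔
      (g = 4 ∧ l 1 + l 2 + l 3 ≤ l 0) ∨
      (n = g + 5 ∧ l (g + 1) + l (g + 2) + l (g + 3) ≤ l (g + 4)))) := by
  obtain ⟨l', hl'⟩ : ∃ l' : ℕ → ℝ, ∀ k, l' k = if k < n then l k else 1 := ⟨_, fun _ => rfl⟩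
  have hpos : ∀ k, 0 < l' k := by
    intro k
    rw [hl' k]
    split_ifs with h
    · exact hl k h
    · exact one_pos
  have heq : ∀ k < n, l k = l' k := fun k hk => by rw [hl' k, if_pos hk]
  have h1 : (fun k : Fin n => l k) = Pool.Agent.GLK.H55.ch l' n := by
    funext k
    exact heq k k.2
  have h2 : (fun k : Fin (g + 1) => l k) = Pool.Agent.GLK.H55.ch l' (g + 1) := by
    funext k
    exact heq k (by have := k.2; omega)
  have h3 : (fun k : Fin (n - g) => l (g + k)) =
      Pool.Agent.GLK.H55.ch (fun k => l' (g + k)) (n - g) := by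
    funext k
    exact heq (g + k) (by have := k.2; omega)
  have hG' : ∑ k ∈ (Finset.range n).erase g, l' k ≤ l' g := by
    rw [← heq g hg, ← Finset.sum_congr rfl (fun k hk => heq k (by
      simp only [Finset.mem_erase, Finset.mem_range] at hk
      exact hk.2))]
    exact hG
  obtain ⟨r1, -, r3⟩ := Pool.Agent.GLK.H55.all_pos hpos hg hG'
  rw [h1, h2, h3]
  refine ⟨r1, fun hg4 hn5 => ?_⟩
  rw [r3 hg4 hn5]
  constructor
  · rintro (⟨rfl, h⟩ | ⟨rfl, h⟩)
    · left
      rw [heq 0 (by omega), heq 1 (by omega), heq 2 (by omega), heq 3 (by omega)]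
      exact ⟨rfl, h⟩
    · right
      rw [heq (g + 1) (by omega), heq (g + 2) (by omega), heq (g + 3) (by omega),
        heq (g + 4) (by omega)]
      exact ⟨rfl, h⟩
  · rintro (⟨rfl, h⟩ | ⟨rfl, h⟩)
    · left
      rw [heq 0 (by omega), heq 1 (by omega), heq 2 (by omega), heq 3 (by omega)] at h
      exact ⟨rfl, h⟩
    · right
      rw [heq (g + 1) (by omega), heq (g + 2) (by omega), heq (g + 3) (by omega),
        heq (g + 4) (by omega)] at h
      exact ⟨rfl, h⟩

end Pool.Agent.Results.MP_e0fe99_lc.GiantLink
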