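import Pool.Agent.Helper79_LKV.ALL

/-!
# MP_e0fe99_lc: knitting needles need not be long

Every chain which contains five consecutive links of lengths `u, b u, u, b u, u` between two links longer than
`(1 + b) u` is locked, if `21/20 ≤ b ≤ 6/5`, or if `b = 1` and one of the two long links is longer than `√5 u`.
So the ratio of the longest and the shortest link of a locked chain can be any number greater than `41/20`.
-/

set_option autoImplicit false

namespace Pool.Agent.Results.MP_e0fe99_lc.NeedlesNearTwo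

open Pool.Agent.LCK

theorem result (n : ℕ) (l : Fin n → ℝ) (hl : ∀ k, 0 < l k) (s : ℕ) (hs : s + 7 ≤ n) (u b : ℝ)
    (h1 : l ⟨s + 1, by omega⟩ = u) (h2 : l ⟨s + 2, by omega⟩ = b * u) (h3 : l ⟨s + 3, by omega⟩ = u)
    (h4 : l ⟨s + 4, by omega⟩ = b * u) (h5 : l ⟨s + 5, by omega⟩ = u)
    (h0 : (1 + b) * u < l ⟨s, by omega⟩) (h6 : (1 + b) * u < l ⟨s + 6, by omega⟩)
    (h : (b = 1 ∧ (Real.sqrt 5 * u < l ⟨s, by omega⟩ ∨ Real.sqrt 5 * u < l ⟨s + 6, by omega⟩)) ∨
      (21 / 20 ≤ b ∧ b ≤ 6 / 5)) : Locked l :=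
  Pool.Agent.LKV.H79.main n l hl s hs u b h1 h2 h3 h4 h5 h0 h6 h

end Pool.Agent.Results.MP_e0fe99_lc.NeedlesNearTwo
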